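import Pool.Agent.Helper14.DL.All

set_option autoImplicit false

/-!
D0L systems over an arbitrary alphabet: only the letters that occur in the first terms count
(own statement beside the frozen statement S14533 of MP_2bc838_lc).
-/

namespace Pool.Agent.Helper60.OWN

universe u

variable {α : Type u}

/-- a homomorphism of free monoids on lists -/
theorem toList_hom (h : FreeMonoid α →* FreeMonoid α) (w : FreeMonoid α) :
    (h w).toList = w.toList.flatMap fun a => (h (FreeMonoid.of a)).toList := by
  induction w using FreeMonoid.inductionOn' with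
  | one => simp
  | of_mul a w ih => simp [ih]

theorem mem_hom (h : FreeMonoid α →* FreeMonoid α) (w : FreeMonoid α) (a : α) :
    a ∈ (h w).toList ↔ ∃ b ∈ w.toList, a ∈ (h (FreeMonoid.of b)).toList := by
  rw [toList_hom]
  simp

/-- the restriction of a homomorphism to a finite set of letters, in coordinates -/
theorem iter_restrict {s : ℕ} (e : Fin s → α) (h : FreeMonoid α →* FreeMonoid α)
    (g : Fin s → List (Fin s)) (hg : ∀ x, (g x).map e = (h (FreeMonoid.of (e x))).toList)
    (u : List (Fin s)) (w : FreeMonoid α) (hu : u.map e = w.toList) (k : ℕ) :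
    ((fun v : List (Fin s) => v.flatMap g)^[k] u).map e = ((h^[k]) w).toList := by
  induction k with
  | zero => exact hu
  | succ k ih =>
    rw [Function.iterate_succ_apply', Function.iterate_succ_apply', toList_hom, ← ih,
      List.map_flatMap, List.flatMap_map]
    congr 1
    funext x
    exact hg x

/-- the bound for systems whose letters lie in a closed finite set of letters -/
theorem closed_case (h₁ h₂ : FreeMonoid α →* FreeMonoid α) (w : FreeMonoid α)
    (S : Finset α) (hw : ∀ a ∈ w.toList, a ∈ S)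
    (hS₁ : ∀ a ∈ S, ∀ b ∈ (h₁ (FreeMonoid.of a)).toList, b ∈ S)
    (hS₂ : ∀ a ∈ S, ∀ b ∈ (h₂ (FreeMonoid.of a)).toList, b ∈ S)
    (H : ∀ k < 2 * S.card, (h₁^[k]) w = (h₂^[k]) w) (k : ℕ) : (h₁^[k]) w = (h₂^[k]) w := by
  classical
  -- coordinates
  let f : Fin S.card ≃ S := S.equivFin.symm
  let e : Fin S.card → α := fun x => (f x : α)
  have hlift : ∀ v : List α, (∀ a ∈ v, a ∈ S) → ∃ u : List (Fin S.card), u.map e = v := by
    intro v
    induction v with
    | nil => intro _; exact ⟨[], rfl⟩
    | cons a v ih =>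
      intro hv
      obtain ⟨u, hu⟩ := ih fun b hb => hv b (List.mem_cons_of_mem a hb)
      refine ⟨f.symm ⟨a, hv a List.mem_cons_self⟩ :: u, ?_⟩
      rw [List.map_cons, hu]
      simp [e]
  have hinj : Function.Injective e := fun x y hxy => f.injective (Subtype.ext hxy)
  have hg₁ : ∀ x : Fin S.card, ∃ u : List (Fin S.card), u.map e = (h₁ (FreeMonoid.of (e x))).toList :=
    fun x => hlift _ fun b hb => hS₁ _ (f x).2 b hb
  have hg₂ : ∀ x : Fin S.card, ∃ u : List (Fin S.card), u.map e = (h₂ (FreeMonoid.of (e x))).toList :=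
    fun x => hlift _ fun b hb => hS₂ _ (f x).2 b hb
  choose g₁ hg₁ using hg₁
  choose g₂ hg₂ using hg₂
  obtain ⟨u, hu⟩ := hlift _ hw
  have key := (DL.fin DL.all S.card g₁ g₂ u u).2 (by
    intro j hj
    apply List.map_injective_iff.2 hinj
    rw [iter_restrict e h₁ g₁ hg₁ u w hu, iter_restrict e h₂ g₂ hg₂ u w hu, H j hj])
  have h1 := iter_restrict e h₁ g₁ hg₁ u w hu k
  have h2 := iter_restrict e h₂ g₂ hg₂ u w hu k
  rw [key k, h2] at h1
  exact (FreeMonoid.toList.injective h1).symm

/-- only the letters of the first `2 n` terms count -/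
theorem occurring (h₁ h₂ : FreeMonoid α →* FreeMonoid α) (w₁ w₂ : FreeMonoid α) (n : ℕ)
    (hn : 1 ≤ n) (hL : {a : α | ∃ k < 2 * n, a ∈ ((h₁^[k]) w₁).toList}.encard ≤ n)
    (H : ∀ k < 2 * n, (h₁^[k]) w₁ = (h₂^[k]) w₂) (k : ℕ) : (h₁^[k]) w₁ = (h₂^[k]) w₂ := by
  classical
  have hw : w₁ = w₂ := H 0 (by omega)
  subst hw
  have hfin : {a : α | ∃ k < 2 * n, a ∈ ((h₁^[k]) w₁).toList}.Finite :=
    Set.finite_of_encard_le_coe hL
  -- letters of the terms up to `m`
  let U : ℕ → Finset α := fun m => (Finset.range (m + 1)).biUnion fun k => ((h₁^[k]) w₁).toList.toFinset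
  have hU : ∀ m a, a ∈ U m ↔ ∃ k ≤ m, a ∈ ((h₁^[k]) w₁).toList := by
    intro m a
    simp only [U, Finset.mem_biUnion, Finset.mem_range, List.mem_toFinset, Nat.lt_succ_iff]
  have hmono : ∀ m, U m ⊆ U (m + 1) := by
    intro m a ha
    rw [hU] at ha ⊢
    obtain ⟨k, hk, h⟩ := ha
    exact ⟨k, by omega, h⟩
  have hcard : ∀ m < 2 * n, (U m).card ≤ n := by
    intro m hm
    have h1 : ((U m : Finset α) : Set α) ⊆ {a : α | ∃ k < 2 * n, a ∈ ((h₁^[k]) w₁).toList} := by
      intro a ha
      obtain ⟨k, hk, h⟩ := (hU m a).1 ha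
      exact ⟨k, by omega, h⟩
    have h2 := (Set.encard_le_encard h1).trans hL
    rw [Set.encard_coe_eq_coe_finsetCard] at h2
    exact_mod_cast h2
  by_cases hemp : w₁ = 1
  · subst hemp
    have h1 : ∀ (h : FreeMonoid α →* FreeMonoid α) (k : ℕ), (h^[k]) (1 : FreeMonoid α) = 1 := by
      intro h k
      induction k with
      | zero => rfl
      | succ k ih => rw [Function.iterate_succ_apply', ih, map_one]
    rw [h1, h1]
  -- the letters stabilise
  have hstab : ∃ m < n, U m = U (m + 1) := by
    by_contra hcon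
    push Not at hcon
    have hlt : ∀ m ≤ n, m + 1 ≤ (U m).card := by
      intro m
      induction m with
      | zero =>
        intro _
        rw [zero_add, Nat.one_le_iff_ne_zero, Finset.card_ne_zero]
        cases hl : w₁.toList with
        | nil =>
          exact absurd (FreeMonoid.toList.injective (hl.trans rfl)) hemp
        | cons a l =>
          refine ⟨a, (hU 0 a).2 ⟨0, le_rfl, ?_⟩⟩
          show a ∈ w₁.toList
          rw [hl]
          exact List.mem_cons_self
      | succ m ih =>
        intro hm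
        have h1 := ih (by omega)
        have h2 : (U m).card < (U (m + 1)).card :=
          Finset.card_lt_card (lt_of_le_of_ne (hmono m) (hcon m (by omega)))
        omega
    have h1 := hlt n le_rfl
    have h2 := hcard n (by omega)
    omega
  obtain ⟨m, hm, hUm⟩ := hstab
  refine closed_case h₁ h₂ w₁ (U m) ?_ ?_ ?_ ?_ k
  · intro a ha
    exact (hU m a).2 ⟨0, by omega, ha⟩
  · intro a ha b hb
    rw [hUm]
    obtain ⟨k, hk, h⟩ := (hU m a).1 ha
    refine (hU (m + 1) b).2 ⟨k + 1, by omega, ?_⟩
    rw [Function.iterate_succ_apply', mem_hom]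
    exact ⟨a, h, hb⟩
  · intro a ha b hb
    rw [hUm]
    obtain ⟨k, hk, h⟩ := (hU m a).1 ha
    refine (hU (m + 1) b).2 ⟨k + 1, by omega, ?_⟩
    rw [H (k + 1) (by omega), Function.iterate_succ_apply', mem_hom]
    rw [H k (by omega)] at h
    exact ⟨a, h, hb⟩
  · intro j hj
    exact H j (by have := hcard m (by omega); omega)

/-- the case of a finite alphabet -/
theorem finite_alphabet [Fintype α] (h₁ h₂ : FreeMonoid α →* FreeMonoid α) (w₁ w₂ : FreeMonoid α)
    (H : ∀ k < 2 * Fintype.card α, (h₁^[k]) w₁ = (h₂^[k]) w₂) (k : ℕ) :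
    (h₁^[k]) w₁ = (h₂^[k]) w₂ := by
  rcases Nat.eq_zero_or_pos (Fintype.card α) with h0 | h0
  · have := Fintype.card_eq_zero_iff.1 h0
    apply FreeMonoid.toList.injective
    have hnil : ∀ l : List α, l = [] := by
      intro l
      cases l with
      | nil => rfl
      | cons a l => exact isEmptyElim a
    rw [hnil (((h₁^[k]) w₁).toList), hnil (((h₂^[k]) w₂).toList)]
  · refine occurring h₁ h₂ w₁ w₂ (Fintype.card α) h0 ?_ H k
    refine (Set.encard_le_encard (Set.subset_univ _)).trans ?_
    rw [Set.encard_univ, ENat.card_eq_coe_fintype_card]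

end Pool.Agent.Helper60.OWN
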