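import Pool.Agent.Helper70.LA.Final

/-!
# Discrepancy of weighted points: the grid part
(own statement beside the frozen statement S11335 of MP_c61924_co)
-/

set_option autoImplicit false

namespace Pool.Agent.Helper60.OWN

open Finset Pool.Agent.Helper70.LA

section grid

variable {ι : Type} [Fintype ι] [DecidableEq ι] {L : ℕ} {α : Type}

/-- the discrepancy of weighted points with thresholds `q` on the grid, shifted by `u` -/
noncomputable def Dw (P : Finset α) (w : α → ℝ) (q : α → ι → ℕ) (u : ι → ℝ)
    (κ : ℝ) (x : ι × Fin L → Bool) : ℝ :=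
  (∑ p ∈ P, w p * (if ∀ i, q p i ≤ num i x then (1 : ℝ) else 0))
    - κ * ∏ i, (((num i x : ℝ) + u i) / 2 ^ L)

theorem discLike_Dw (n : ℕ) (hn : n < L) (P : Finset α) (w : α → ℝ) (q : α → ι → ℕ) (u : ι → ℝ)
    (κ : ℝ) (hP : 4 * P.card ≤ 2 ^ n) : DiscLike n κ (Dw (L := L) P w q u κ) := by
  classical
  intro r hr
  let g : (ι × Fin L → Bool) → ℝ := fun x =>
    if ∃ p ∈ P, ∀ i, Splits i (r i) (q p i) x then 0 else 1
  have hginv : ∀ i x y, g (mix (low i (r i)) x y) = g x := by
    intro i x y
    simp only [g, pts2_splits_mix]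
  refine ⟨g, ?_, hginv, ?_, ?_⟩
  · intro x
    simp only [g]
    by_cases h : ∃ p ∈ P, ∀ i, Splits i (r i) (q p i) x
    · left; simp [h]
    · right; simp [h]
  · have h1 : ∀ x, 1 - g x ≤ ∑ p ∈ P,
        ind {x : ι × Fin L → Bool | ∀ i, Splits i (r i) (q p i) x} x := by
      intro x
      by_cases h : ∃ p ∈ P, ∀ i, Splits i (r i) (q p i) x
      · have hgx : g x = 0 := by simp only [g]; rw [if_pos h]
        rw [hgx]
        obtain ⟨p, hp, hs⟩ := h
        have h2 : ind {x : ι × Fin L → Bool | ∀ i, Splits i (r i) (q p i) x} x = 1 :=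
          ind_of_mem hs
        have h3 := Finset.single_le_sum
          (f := fun p => ind {x : ι × Fin L → Bool | ∀ i, Splits i (r i) (q p i) x} x)
          (fun p _ => ind_nonneg _ x) hp
        linarith
      · have hgx : g x = 1 := by simp only [g]; rw [if_neg h]
        rw [hgx]
        have := Finset.sum_nonneg (s := P)
          (f := fun p => ind {x : ι × Fin L → Bool | ∀ i, Splits i (r i) (q p i) x} x)
          (fun p _ => ind_nonneg _ x)
        linarith
    have h2 := av_mono h1
    rw [av_sum, av_sub, av_const] at h2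
    have h3 : ∑ p ∈ P, av (ind {x : ι × Fin L → Bool | ∀ i, Splits i (r i) (q p i) x})
        ≤ ∑ p ∈ P, (1 / 2 ^ n : ℝ) := by
      apply Finset.sum_le_sum
      intro p _
      exact av_splits_le n hn r hr (q p)
    rw [Finset.sum_const, nsmul_eq_mul] at h3
    have h4 : (P.card : ℝ) * (1 / 2 ^ n) ≤ 1 / 4 := by
      have h5 : (4 : ℝ) * P.card ≤ 2 ^ n := by exact_mod_cast hP
      have h6 : (0 : ℝ) < 2 ^ n := by positivity
      rw [mul_one_div, div_le_iff₀ h6]
      linarith
    have h5 : av g = av (fun x => g x) := rfl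
    rw [h5]
    linarith
  · intro φ hφ
    have hgex : ∀ p ∈ P, ∀ x, g x ≠ 0 → ∃ i, ¬ Splits i (r i) (q p i) x := by
      intro p hp x hx
      by_contra h
      push Not at h
      apply hx
      simp only [g]
      rw [if_pos ⟨p, hp, h⟩]
    have e1 : ∀ x, g x * φ x * Dw (L := L) P w q u κ x
        = (∑ p ∈ P, w p * (g x * φ x * (if ∀ i, q p i ≤ num i x then (1 : ℝ) else 0)))
          - κ * (g x * φ x * ∏ i, (((num i x : ℝ) + u i) / 2 ^ L)) := by
      intro x
      unfold Dw
      rw [mul_sub, Finset.mul_sum]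
      congr 1
      · refine Finset.sum_congr rfl fun p _ => ?_
        ring
      · ring
    simp only [e1]
    rw [av_sub, av_sum, av_mul_left, pts2_av_volume n hn r hr u g φ hginv hφ]
    rw [Finset.sum_eq_zero]
    · ring
    · intro p hp
      rw [av_mul_left, pts2_av_threshold r (q p) g φ hginv (hgex p hp) hφ, mul_zero]

end grid

end Pool.Agent.Helper60.OWN
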