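import Pool.Agent.Helper60.OWN.WeightedA

/-!
# Discrepancy of weighted points: from the grid to the unit cube
-/

set_option autoImplicit false

namespace Pool.Agent.Helper60.OWN

open MeasureTheory Pool.Agent.Helper93.LD

/-- reduction of the integral of a nonnegative function to averages over shifted grids of step `2^(-L)` -/
theorem grid_reduction (d L : ℕ) (F : (Fin d → ℝ) → ℝ)
    (hF0 : ∀ x, 0 ≤ F x) (hFint : IntegrableOn F (Set.Icc (0 : Fin d → ℝ) 1)) (B : ℝ)
    (h : ∀ u : Fin d → ℝ, (∀ i, 0 ≤ u i ∧ u i < 1) →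
      B ≤ avd L d (fun k => F (fun i => ((k i : ℝ) + u i) / 2 ^ L))) :
    B ≤ ∫ x in Set.Icc (0 : Fin d → ℝ) 1, F x := by
  have hL : (0:ℝ) < 2 ^ L := by positivity
  -- pass to the half open cube
  have hsub : ∫ x in cube d, F x ≤ ∫ x in Set.Icc (0 : Fin d → ℝ) 1, F x := by
    apply setIntegral_mono_set hFint
    · exact Filter.Eventually.of_forall fun x => hF0 x
    · exact (cube_subset d).eventuallyLE
  refine le_trans ?_ hsub
  have hint : IntegrableOn F (cube d) := hFint.mono_set (cube_subset d)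
  set H : (Fin d → Fin (2 ^ L)) → (Fin d → ℝ) → ℝ := fun k x =>
    (cube d).indicator (fun _ => F x) ((2:ℝ) ^ L • x - (fun i => ((k i : ℕ) : ℝ)))
    with hH
  have hHk : ∀ k x, H k x = {y : Fin d → ℝ | (2:ℝ) ^ L • y - (fun i => ((k i : ℕ) : ℝ)) ∈ cube d}.indicator
      ((cube d).indicator F) x := by
    intro k x
    by_cases hx : (2:ℝ) ^ L • x - (fun i => ((k i : ℕ) : ℝ)) ∈ cube d
    · rw [Set.indicator_of_mem (show x ∈ {y : Fin d → ℝ |
        (2:ℝ) ^ L • y - (fun i => ((k i : ℕ) : ℝ)) ∈ cube d} from hx)]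
      rw [hH]
      simp only
      rw [Set.indicator_of_mem hx]
      have hxc : x ∈ cube d := by
        intro i
        have h3 := hx i
        simp only [Pi.sub_apply, Pi.smul_apply, smul_eq_mul] at h3
        have hk : ((k i : ℕ) : ℝ) + 1 ≤ 2 ^ L := by
          have := (k i).2
          exact_mod_cast this
        have hk0 : (0:ℝ) ≤ ((k i : ℕ) : ℝ) := Nat.cast_nonneg _
        constructor
        · by_contra hneg
          have : (2:ℝ) ^ L * x i < 0 := mul_neg_of_pos_of_neg hL (not_le.mp hneg)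
          linarith [h3.1]
        · by_contra hneg
          have : (2:ℝ) ^ L * 1 ≤ 2 ^ L * x i := mul_le_mul_of_nonneg_left (not_lt.mp hneg) hL.le
          linarith [h3.2]
      rw [Set.indicator_of_mem hxc]
    · rw [Set.indicator_of_notMem (show x ∉ {y : Fin d → ℝ |
        (2:ℝ) ^ L • y - (fun i => ((k i : ℕ) : ℝ)) ∈ cube d} from hx)]
      rw [hH]
      exact Set.indicator_of_notMem hx _
  have hmeasS : ∀ k : Fin d → Fin (2 ^ L), MeasurableSet
      {y : Fin d → ℝ | (2:ℝ) ^ L • y - (fun i => ((k i : ℕ) : ℝ)) ∈ cube d} := by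
    intro k
    exact ((measurable_const_smul ((2:ℝ) ^ L)).sub_const _) (measurableSet_cube d)
  have hIntH : ∀ k, Integrable (H k) := by
    intro k
    have h1 : H k = {y : Fin d → ℝ | (2:ℝ) ^ L • y - (fun i => ((k i : ℕ) : ℝ)) ∈ cube d}.indicator
      ((cube d).indicator F) := funext (hHk k)
    rw [h1]
    exact (hint.integrable_indicator (measurableSet_cube d)).indicator (hmeasS k)
  have hsum : ∫ x in cube d, F x = ∑ k : Fin d → Fin (2 ^ L), ∫ x, H k x := by
    rw [← integral_indicator (measurableSet_cube d), ← integral_finsetSum _ fun k _ => hIntH k]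
    exact integral_congr_ae (Filter.Eventually.of_forall fun x => cube_decomp L _ x)
  -- change of variables
  have hHu : ∀ (k : Fin d → Fin (2 ^ L)) (u : Fin d → ℝ),
      H k (((2:ℝ) ^ L)⁻¹ • (fun i => ((k i : ℕ) : ℝ)) + ((2:ℝ) ^ L)⁻¹ • u) =
      (cube d).indicator (fun u => F (fun i => (((k i : ℕ) : ℝ) + u i) / 2 ^ L)) u := by
    intro k u
    have h1 : (2:ℝ) ^ L • (((2:ℝ) ^ L)⁻¹ • (fun i => ((k i : ℕ) : ℝ)) + ((2:ℝ) ^ L)⁻¹ • u)
        - (fun i => ((k i : ℕ) : ℝ)) = u := by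
      rw [smul_add, smul_smul, smul_smul, mul_inv_cancel₀ hL.ne', one_smul, one_smul,
        add_sub_cancel_left]
    have h2 : (((2:ℝ) ^ L)⁻¹ • (fun i => ((k i : ℕ) : ℝ)) + ((2:ℝ) ^ L)⁻¹ • u) =
        (fun i => (((k i : ℕ) : ℝ) + u i) / 2 ^ L) := by
      ext i
      simp only [Pi.add_apply, Pi.smul_apply, smul_eq_mul]
      rw [div_eq_inv_mul, mul_add]
    rw [hH]
    simp only
    rw [h1, h2]
    by_cases hu : u ∈ cube d
    · rw [Set.indicator_of_mem hu, Set.indicator_of_mem hu]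
    · rw [Set.indicator_of_notMem hu, Set.indicator_of_notMem hu]
  have hInt2 : ∀ k : Fin d → Fin (2 ^ L), Integrable
      ((cube d).indicator (fun u => F (fun i => (((k i : ℕ) : ℝ) + u i) / 2 ^ L))) := by
    intro k
    have h1 : Integrable (fun x : Fin d → ℝ => H k (((2:ℝ) ^ L)⁻¹ • (fun i => ((k i : ℕ) : ℝ)) + x)) :=
      (hIntH k).comp_add_left _
    have h2 := h1.comp_smul (R := ((2:ℝ) ^ L)⁻¹) (inv_ne_zero hL.ne')
    refine h2.congr (Filter.Eventually.of_forall fun u => ?_)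
    exact hHu k u
  have hcell : ∀ k : Fin d → Fin (2 ^ L), ∫ x, H k x = (((2:ℝ) ^ L) ^ d)⁻¹ *
      ∫ u, (cube d).indicator
        (fun u => F (fun i => (((k i : ℕ) : ℝ) + u i) / 2 ^ L)) u := by
    intro k
    rw [integral_cell L (fun i => ((k i : ℕ) : ℝ)) (H k)]
    congr 1
    exact integral_congr_ae (Filter.Eventually.of_forall fun u => hHu k u)
  rw [hsum]
  simp only [hcell]
  rw [← Finset.mul_sum, ← integral_finsetSum _ fun k _ => hInt2 k, ← integral_const_mul]
  have hB : B = ∫ u, (cube d).indicator (fun _ => B) u := by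
    rw [integral_indicator (measurableSet_cube d), setIntegral_const, Measure.real, volume_cube]
    simp
  rw [hB]
  apply integral_mono
  · refine IntegrableOn.integrable_indicator ?_ (measurableSet_cube d)
    refine integrableOn_const ?_ (by simp)
    rw [volume_cube]
    exact ENNReal.one_ne_top
  · exact (integrable_finsetSum _ fun k _ => hInt2 k).const_mul _
  · intro u
    by_cases hu : u ∈ cube d
    · simp only
      rw [Set.indicator_of_mem hu]
      simp only [Set.indicator_of_mem hu]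
      refine (h u hu).trans (le_of_eq ?_)
      rw [avd_eq_sum]
    · simp only
      rw [Set.indicator_of_notMem hu]
      simp only [Set.indicator_of_notMem hu, Finset.sum_const_zero, mul_zero, le_refl]

/-- the absolute value of the discrepancy function of `N` weighted points -/
noncomputable def wdisc {d N : ℕ} (p : Fin N → Fin d → ℝ) (w : Fin N → ℝ) (x : Fin d → ℝ) : ℝ :=
  |(∑ j, w j * (if ∀ i, p j i < x i then (1 : ℝ) else 0)) - (N : ℝ) * ∏ i, x i|

theorem measurable_wdisc {d N : ℕ} (p : Fin N → Fin d → ℝ) (w : Fin N → ℝ) :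
    Measurable (wdisc p w) := by
  unfold wdisc
  apply Measurable.abs
  apply Measurable.sub
  · refine Finset.measurable_sum _ fun j _ => ?_
    apply Measurable.const_mul
    refine Measurable.ite ?_ measurable_const measurable_const
    have h1 : {x : Fin d → ℝ | ∀ i, p j i < x i} = ⋂ i, {x | p j i < x i} := by
      ext x
      simp
    rw [h1]
    exact MeasurableSet.iInter fun i => measurableSet_lt measurable_const (measurable_pi_apply i)
  · apply Measurable.const_mul
    exact Finset.measurable_prod _ fun i _ => measurable_pi_apply i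

theorem wdisc_le {d N : ℕ} (p : Fin N → Fin d → ℝ) (w : Fin N → ℝ) (x : Fin d → ℝ)
    (hx : x ∈ Set.Icc (0 : Fin d → ℝ) 1) : wdisc p w x ≤ (∑ j, |w j|) + N := by
  unfold wdisc
  refine (abs_sub _ _).trans (add_le_add ?_ ?_)
  · refine (Finset.abs_sum_le_sum_abs _ _).trans ?_
    refine Finset.sum_le_sum fun j _ => ?_
    rw [abs_mul]
    split_ifs <;> simp
  · have h1 : 0 ≤ ∏ i, x i := Finset.prod_nonneg fun i _ => hx.1 i
    have h2 : ∏ i, x i ≤ 1 := Finset.prod_le_one (fun i _ => hx.1 i) fun i _ => hx.2 i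
    rw [abs_of_nonneg (by positivity)]
    exact mul_le_of_le_one_right (by positivity) h2

theorem wdisc_integrableOn {d N : ℕ} (p : Fin N → Fin d → ℝ) (w : Fin N → ℝ) :
    IntegrableOn (wdisc p w) (Set.Icc (0 : Fin d → ℝ) 1) := by
  have hfin : volume (Set.Icc (0 : Fin d → ℝ) 1) ≠ ⊤ := (isCompact_Icc).measure_lt_top.ne
  refine Measure.integrableOn_of_bounded (M := (∑ j, |w j|) + N) hfin
    (measurable_wdisc p w).aestronglyMeasurable ?_
  rw [ae_restrict_iff' measurableSet_Icc]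
  refine Filter.Eventually.of_forall fun x hx => ?_
  rw [Real.norm_of_nonneg (show 0 ≤ wdisc p w x from abs_nonneg _)]
  exact wdisc_le p w x hx

/-- the lower bound at the resolution `n` -/
theorem wdisc_key (d : ℕ) (hd : 2 ≤ d) : ∃ c : ℝ, 0 < c ∧ ∃ n0 : ℕ, ∀ n, n0 ≤ n →
    ∀ N : ℕ, 1 ≤ N → 4 * N ≤ 2 ^ n → ∀ (p : Fin N → Fin d → ℝ) (w : Fin N → ℝ),
      c * ((N : ℝ) / 2 ^ n) * √(((n : ℝ) + 1) ^ (d - 1)) ≤
        ∫ x in Set.Icc (0 : Fin d → ℝ) 1, wdisc p w x := by
  obtain ⟨c, hc, n0, hmain⟩ := Pool.Agent.Helper70.LA.abstract_main (Fin d) (by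
    rw [Fintype.card_fin]; exact hd)
  refine ⟨c, hc, n0, fun n hn N hN hNn p w => ?_⟩
  have hNpos : (0 : ℝ) < N := by exact_mod_cast hN
  have hL : (0:ℝ) < 2 ^ (n + 1) := by positivity
  refine grid_reduction d (n + 1) (wdisc p w) (fun x => abs_nonneg _) (wdisc_integrableOn p w) _ ?_
  intro u hu
  rw [Pool.Agent.Helper70.LA.avd_eq]
  have h1 := hmain n hn (n + 1) (by omega) N hNpos
    (Dw (L := n + 1) (Finset.univ : Finset (Fin N)) w
      (fun j i => (⌊(2:ℝ) ^ (n + 1) * p j i - u i⌋ + 1).toNat) u N)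
    (discLike_Dw n (by omega) Finset.univ w _ u N (by rw [Finset.card_univ, Fintype.card_fin]; exact hNn))
  rw [Fintype.card_fin] at h1
  refine h1.trans (le_of_eq ?_)
  congr 1
  funext x
  unfold Dw wdisc
  congr 2
  refine Finset.sum_congr rfl fun j _ => ?_
  congr 2
  apply propext
  refine forall_congr' fun i => ?_
  rw [lt_div_iff₀ hL, Int.toNat_le, Int.add_one_le_iff, Int.floor_lt]
  push_cast
  constructor
  · intro h; linarith
  · intro h; linarith

/-- the `L^1` lower bound for weighted points -/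
theorem wdisc_all (d : ℕ) (hd : 2 ≤ d) : ∃ c : ℝ, 0 < c ∧ ∀ N : ℕ, 1 ≤ N →
    ∀ (p : Fin N → Fin d → ℝ) (w : Fin N → ℝ),
      c * (1 + Real.log N) ^ (((d : ℝ) - 1) / 2) ≤
        ∫ x in Set.Icc (0 : Fin d → ℝ) 1, wdisc p w x := by
  obtain ⟨c, hc, n0, hmain⟩ := wdisc_key d hd
  have hd1 : (1 : ℝ) ≤ d := by exact_mod_cast (by omega : 1 ≤ d)
  set E : ℝ := ((d : ℝ) - 1) / 2 with hE
  have hE0 : 0 ≤ E := by rw [hE]; linarith
  refine ⟨c / 2 ^ (n0 + 3), by positivity, fun N hN p w => ?_⟩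
  have hNpos : (0 : ℝ) < N := by exact_mod_cast hN
  have hlog0 : 0 ≤ Real.log N := Real.log_natCast_nonneg N
  have hlog2 : Real.log 2 ≤ 1 := by
    have := Real.log_two_lt_d9
    linarith
  set m := Nat.clog 2 N with hm
  have hm1 : N ≤ 2 ^ m := Nat.le_pow_clog (by norm_num) N
  have hm2 : 2 ^ m ≤ 2 * N := by
    rcases Nat.lt_or_ge 1 N with h1 | h1
    · have h2 := Nat.pow_pred_clog_lt_self (b := 2) (by norm_num) h1
      have h3 : 0 < Nat.clog 2 N := Nat.clog_pos (by norm_num) (by omega)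
      have h4 : 2 ^ Nat.clog 2 N = 2 * 2 ^ (Nat.clog 2 N).pred := by
        rw [← pow_succ']
        congr 1
        exact (Nat.succ_pred_eq_of_pos h3).symm
      rw [← hm] at h2 h4
      omega
    · have h2 : N = 1 := by omega
      rw [hm, h2]
      simp
  have hlog : Real.log N ≤ m := by
    have h3 : Real.log N ≤ Real.log ((2 : ℝ) ^ m) := by
      apply Real.log_le_log hNpos
      exact_mod_cast hm1
    rw [Real.log_pow] at h3
    have h5 : (0 : ℝ) ≤ m := by positivity
    nlinarith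
  set n := m + 2 + n0 with hn
  have hp : (2 : ℕ) ^ n = 2 ^ m * 4 * 2 ^ n0 := by rw [hn, pow_add, pow_add]; norm_num
  have h2n0 : 1 ≤ 2 ^ n0 := Nat.one_le_two_pow
  have hn1 : 4 * N ≤ 2 ^ n := by
    rw [hp]
    nlinarith [Nat.mul_le_mul_left (2 ^ m * 4) h2n0]
  have hn2 : (2 : ℝ) ^ n ≤ 2 ^ (n0 + 3) * N := by
    have h1 : 2 ^ n ≤ 2 ^ (n0 + 3) * N := by
      rw [hp, pow_add]
      calc 2 ^ m * 4 * 2 ^ n0 ≤ (2 * N) * 4 * 2 ^ n0 := by gcongr
        _ = 2 ^ n0 * 2 ^ 3 * N := by ring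
    exact_mod_cast h1
  have key := hmain n (by omega) N hN hn1 p w
  refine le_trans ?_ key
  have hsq : (1 + Real.log N) ^ E ≤ √(((n : ℝ) + 1) ^ (d - 1)) := by
    have h1 : √(((n : ℝ) + 1) ^ (d - 1)) = ((n : ℝ) + 1) ^ E := by
      rw [Real.sqrt_eq_rpow, ← Real.rpow_natCast, ← Real.rpow_mul (by positivity)]
      congr 1
      rw [hE, Nat.cast_sub (by omega)]
      push_cast
      ring
    rw [h1]
    refine Real.rpow_le_rpow (by linarith) ?_ hE0
    rw [hn]
    push_cast
    have : (0 : ℝ) ≤ n0 := Nat.cast_nonneg _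
    linarith
  have h8 : (1 : ℝ) / 2 ^ (n0 + 3) ≤ N / 2 ^ n := by
    rw [div_le_div_iff₀ (by positivity) (by positivity)]
    linarith
  calc c / 2 ^ (n0 + 3) * (1 + Real.log N) ^ E
      ≤ c / 2 ^ (n0 + 3) * √(((n : ℝ) + 1) ^ (d - 1)) := by gcongr
    _ = c * (1 / 2 ^ (n0 + 3)) * √(((n : ℝ) + 1) ^ (d - 1)) := by ring
    _ ≤ c * ((N : ℝ) / 2 ^ n) * √(((n : ℝ) + 1) ^ (d - 1)) := by gcongr

end Pool.Agent.Helper60.OWN
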